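import Mathlib
import Pool.Agent.Helper76.Cam.Defs
import Pool.Agent.Helper76.Cam.Main

namespace Pool.Agent.Results.MP_346ba0_al.ClassFive

open Helper76.Cam

/-- For every prime `p ≥ 5` there is a group `G` of order `p ^ 15` and nilpotence class `5` with a
Camina pair `(G, N)` such that `N = G_3`, so that `N` is neither `G_4` nor `G_5`. -/
theorem result (p : ℕ) (hp : p.Prime) (h5 : 5 ≤ p) :
    ∃ (G : Type) (_ : Group G) (N : Subgroup G),
      Nat.card G = p ^ 15 ∧ HasClass G 5 ∧ IsCaminaPair N ∧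
        N = gam G 3 ∧ N ≠ gam G 4 ∧ N ≠ gam G 5 :=
  main p hp h5

end Pool.Agent.Results.MP_346ba0_al.ClassFive
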